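import Pool.Agent.H23.D2.Two
import Pool.Agent.H60.D2.Box

/-!
# The chart of the target is straight along the lines through one point

`crt_eq`: for two samples `ω`, `ν` of one exact point the closed polynomials of the line of `ω` have
the velocity of `ν` and a small second derivative along `ν`. `crt_two`: the equation of the charts:
`Z + 2 c' δ - N_uu δ ^ 2` is small, `δ` the own velocity of `u` along `ν` over its chart.
-/

set_option autoImplicit false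

namespace Pool.CRT95

open Finset Real MvPolynomial
open Pool.Agent.H49.Ent Pool.Agent.H32.Dense Pool.STK Pool.KA Pool.KSAT Pool.K2S Pool.PB Pool.S6C
open Pool.GEN Pool.CHT Pool.D2R
open Pool.PB.Trl (rt rt_mem t_rt)

variable {m J : ℕ}

/-- **The charts of the line of `ω` along the line of `ν`.** -/
theorem crt_eq (m D r : ℕ) : ∃ C : ℕ, 1 ≤ C ∧ ∀ {J : ℕ} {F : Fam m J} {c : ℕ → Fin m}
    {a e k : ℕ} {g₀ : ℕ → ℕ} {A : F.Ω → Prop}
    {G₀ : PtT F → ℕ → MvPolynomial (Option (Fin m)) ℝ}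
    {H₀ : LnT F → ℕ → MvPolynomial (Option (Fin m)) ℝ}, Set.InjOn c (Set.Iio (r + 1)) → a ≤ J →
    ChOK F c (r + 1) (fun _ => D) a a e g₀ A G₀ H₀ →
    (∀ l ≤ r, e + g₀ l + C * (k + 1) ≤ J) → ∀ ω ν, A ω → A ν → ptr F J ω = ptr F J ν →
    (∀ l ≤ r, ∀ τ ∈ Set.Icc (0 : ℝ) 1,
      |(dv a (fun s _ => H₀ s l) (c l) (slam F a ν)).eval τ| ≤ 2 ^ k / 2 ^ g₀ l) → ∀ l ≤ r,
    |bd F ν (some (c l)) - dd (H₀ (slam F a ω) l) (bt F ω) (bd F ν)| ≤
        2 ^ (C * (k + 1)) * 2 ^ a / 2 ^ g₀ l ∧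
      |hs (H₀ (slam F a ω) l) (bt F ω) (bd F ν) (bd F ν)| ≤
        2 ^ (C * (k + 1)) * (2 ^ a) ^ 2 / 2 ^ g₀ l := by
  classical
  obtain ⟨C₁, hC₁, hpn⟩ := path_nat m D r
  obtain ⟨C₂, hC₂, hbt⟩ := box_two r D D
  obtain ⟨c₂, hc₂⟩ := pow_unbounded_of_one_lt (2 * C₂ + 1) (one_lt_two (α := ℝ))
  refine ⟨2 * C₁ + c₂, by omega, ?_⟩
  intro J F c a e k g₀ A G₀ H₀ hc haJ hch hJ ω ν hω hν hpt hdv
  have hle : C₁ * (k + 1) ≤ (2 * C₁ + c₂) * (k + 1) := Nat.mul_le_mul_right _ (by omega)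
  have hnat := hpn hc haJ hch (fun l hl => by
    have := hJ l hl
    omega) ω ν hω hν hpt hdv
  intro l hl
  have ha0 : (0 : ℝ) < 2 ^ a := by positivity
  have hg0 : (0 : ℝ) < 2 ^ g₀ l := by positivity
  obtain ⟨E, hE⟩ : ∃ E : ℝ, E = 2 ^ (C₁ * (k + 1)) := ⟨_, rfl⟩
  have hE1 : 1 ≤ E := by
    rw [hE]
    exact one_le_pow₀ (by norm_num)
  have hE0 : 0 < E := by linarith
  obtain ⟨Q, hQ⟩ : ∃ Q, Q = G₀ (ptr F J ω) l - H₀ (slam F a ω) l := ⟨_, rfl⟩
  have hQdep : DepC c r Q := by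
    intro b b' h1 h2
    rw [hQ, map_sub, map_sub, hch.depG _ l b b' h1 fun j hj => h2 j (by omega),
      hch.depH _ l b b' h1 fun j hj => h2 j (by omega)]
  have hQdeg : Q.totalDegree ≤ D := by
    rw [hQ]
    exact (totalDegree_sub _ _).trans (max_le (hch.degG _ l) (hch.degH _ l))
  have hbox : ∀ b, NBx c (G₀ (ptr F J ω)) g₀ a (bt F ω none) r b → |eval b Q| ≤ 1 / 2 ^ g₀ l := by
    intro b hb
    rw [hQ, map_sub]
    exact hch.agr ω hω l (by omega) b ⟨hb.1, fun j hj => hb.2 j (by omega)⟩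
  have hx : ∀ j < r, |bt F ω (some (c j)) - eval (bt F ω) (G₀ (ptr F J ω) j)| ≤ 1 / 2 ^ g₀ j :=
    fun j hj => hch.pos ω hω j (by omega)
  have hW0 : |bd F ν none| ≤ E * 2 ^ a / 2 ^ a := by
    have e1 : bd F ν none = 1 := rfl
    rw [e1, abs_one, mul_div_assoc, div_self ha0.ne', mul_one]
    exact hE1
  have hW : ∀ j < r, |bd F ν (some (c j)) - dd (G₀ (ptr F J ω) j) (bt F ω) (bd F ν)| ≤
      E * 2 ^ a / 2 ^ g₀ j := fun j hj => by
    rw [hE]
    exact (hnat j hj.le).1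
  obtain ⟨h1, h2⟩ := hbt (M := 1 / 2 ^ g₀ l) (L := E * 2 ^ a)
    (hc.mono fun y hy => by rw [Set.mem_Iio] at hy ⊢; omega) (fun j => hch.degG _ j)
    (fun j => hch.depG _ j) hQdep hQdeg (by positivity) (by positivity) hbox hx (bd F ν) hW0 hW
  obtain ⟨Z, hZ0, hZ⟩ := vec_adapt (i := r)
    (hc.mono fun y hy => by rw [Set.mem_Iio] at hy ⊢; omega)
    (fun j => hch.depG (ptr F J ω) j) (bt F ω) 0
    (fun j => hs (G₀ (ptr F J ω) j) (bt F ω) (bd F ν) (bd F ν)) r le_rfl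
  have h3 := h2 (bd F ν) hW0 hW Z hZ0 hZ
  obtain ⟨h4, -⟩ := hbt (M := 1 / 2 ^ g₀ l) (L := E * (2 ^ a) ^ 2)
    (hc.mono fun y hy => by rw [Set.mem_Iio] at hy ⊢; omega) (fun j => hch.degG _ j)
    (fun j => hch.depG _ j) hQdep hQdeg (by positivity) (by positivity) hbox hx Z (by
      rw [hZ0, abs_zero]
      positivity) (fun j hj => by
      rw [hZ j hj, hE]
      exact (hnat j hj.le).2)
  obtain ⟨h5, h6⟩ := hnat l hl
  rw [← hE] at h5 h6
  rw [hQ, dd_sub] at h1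
  have h7 : |hs (G₀ (ptr F J ω) l) (bt F ω) (bd F ν) (bd F ν) -
      hs (H₀ (slam F a ω) l) (bt F ω) (bd F ν) (bd F ν)| ≤
      C₂ * (1 / 2 ^ g₀ l) * (E * 2 ^ a) ^ 2 + C₂ * (1 / 2 ^ g₀ l) * (E * (2 ^ a) ^ 2) := by
    rw [← hs_sub, ← hQ]
    have e1 : hs Q (bt F ω) (bd F ν) (bd F ν) = (hs Q (bt F ω) (bd F ν) (bd F ν) +
        dd Q (bt F ω) Z) - dd Q (bt F ω) Z := by ring
    rw [e1]
    exact (abs_sub _ _).trans (add_le_add h3 h4)
  have hEE : E ≤ E * E := by nlinarith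
  have hpow : (2 * C₂ + 1) * (E * E) ≤ 2 ^ ((2 * C₁ + c₂) * (k + 1)) := by
    have e1 : (2 : ℝ) ^ ((2 * C₁ + c₂) * (k + 1)) = 2 ^ (c₂ * (k + 1)) * (E * E) := by
      rw [hE, ← pow_add, ← pow_add]
      congr 1
      ring
    rw [e1]
    refine mul_le_mul_of_nonneg_right ?_ (by positivity)
    refine hc₂.le.trans (pow_le_pow_right₀ (by norm_num) ?_)
    exact Nat.le_mul_of_pos_right _ (by omega)
  constructor
  · have h8 : |bd F ν (some (c l)) - dd (H₀ (slam F a ω) l) (bt F ω) (bd F ν)| ≤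
        E * 2 ^ a / 2 ^ g₀ l + C₂ * (1 / 2 ^ g₀ l) * (E * 2 ^ a) := by
      have e1 : bd F ν (some (c l)) - dd (H₀ (slam F a ω) l) (bt F ω) (bd F ν) =
          (bd F ν (some (c l)) - dd (G₀ (ptr F J ω) l) (bt F ω) (bd F ν)) +
          (dd (G₀ (ptr F J ω) l) (bt F ω) (bd F ν) - dd (H₀ (slam F a ω) l) (bt F ω) (bd F ν)) := by
        ring
      rw [e1]
      exact (abs_add_le _ _).trans (add_le_add h5 h1)
    refine h8.trans ?_
    have e1 : E * 2 ^ a / 2 ^ g₀ l + C₂ * (1 / 2 ^ g₀ l) * (E * 2 ^ a) =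
        (C₂ + 1) * E * 2 ^ a / 2 ^ g₀ l := by ring
    rw [e1]
    refine div_le_div_of_nonneg_right (mul_le_mul_of_nonneg_right (le_trans ?_ hpow) ha0.le) hg0.le
    nlinarith
  · have h8 : |hs (H₀ (slam F a ω) l) (bt F ω) (bd F ν) (bd F ν)| ≤
        E * (2 ^ a) ^ 2 / 2 ^ g₀ l + (C₂ * (1 / 2 ^ g₀ l) * (E * 2 ^ a) ^ 2 +
          C₂ * (1 / 2 ^ g₀ l) * (E * (2 ^ a) ^ 2)) := by
      have e1 : hs (H₀ (slam F a ω) l) (bt F ω) (bd F ν) (bd F ν) =
          hs (G₀ (ptr F J ω) l) (bt F ω) (bd F ν) (bd F ν) -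
          (hs (G₀ (ptr F J ω) l) (bt F ω) (bd F ν) (bd F ν) -
            hs (H₀ (slam F a ω) l) (bt F ω) (bd F ν) (bd F ν)) := by ring
      rw [e1]
      exact (abs_sub _ _).trans (add_le_add h6 h7)
    refine h8.trans ?_
    have e1 : E * (2 ^ a) ^ 2 / 2 ^ g₀ l + (C₂ * (1 / 2 ^ g₀ l) * (E * 2 ^ a) ^ 2 +
          C₂ * (1 / 2 ^ g₀ l) * (E * (2 ^ a) ^ 2)) =
        (E + C₂ * (E * E) + C₂ * E) * (2 ^ a) ^ 2 / 2 ^ g₀ l := by ring
    rw [e1]
    refine div_le_div_of_nonneg_right (mul_le_mul_of_nonneg_right (le_trans ?_ hpow)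
      (by positivity)) hg0.le
    nlinarith

/-- The unit vector of a coordinate. -/
noncomputable def eu (k : Fin m) : Option (Fin m) → ℝ := Pi.single (some k) 1

/-- The own velocity of the coordinate `k` over the chart `P`, in the direction `X`. -/
noncomputable def own (P : MvPolynomial (Option (Fin m)) ℝ) (k : Fin m)
    (x X : Option (Fin m) → ℝ) : ℝ :=
  X (some k) - dd P x X

/-- The direction over `X` which is tangent to the chart `P` of the coordinate `k`. -/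
noncomputable def tgv (P : MvPolynomial (Option (Fin m)) ℝ) (k : Fin m)
    (x X : Option (Fin m) → ℝ) : Option (Fin m) → ℝ :=
  X - own P k x X • eu k

theorem tgv_ne (P : MvPolynomial (Option (Fin m)) ℝ) (k : Fin m) (x X : Option (Fin m) → ℝ)
    {o : Option (Fin m)} (ho : o ≠ some k) : tgv P k x X o = X o := by
  unfold tgv eu
  rw [Pi.sub_apply, Pi.smul_apply, Pi.single_eq_of_ne ho, smul_zero, sub_zero]

theorem tgv_self (P : MvPolynomial (Option (Fin m)) ℝ) (k : Fin m) (x X : Option (Fin m) → ℝ) :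
    tgv P k x X (some k) = dd P x X := by
  unfold tgv eu own
  rw [Pi.sub_apply, Pi.smul_apply, Pi.single_eq_same, smul_eq_mul, mul_one]
  ring

/-- **The equation of the charts**, algebra. -/
theorem crt_alg (Q P : MvPolynomial (Option (Fin m)) ℝ) (x X : Option (Fin m) → ℝ) (k : Fin m) :
    hs Q x (tgv P k x X) (tgv P k x X) + 2 * hs Q x (tgv P k x X) (eu k) * own P k x X +
      hs Q x (eu k) (eu k) * own P k x X ^ 2 = hs Q x X X := by
  obtain ⟨δ, hδ⟩ : ∃ δ : ℝ, δ = own P k x X := ⟨_, rfl⟩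
  obtain ⟨T, hT⟩ : ∃ T, T = tgv P k x X := ⟨_, rfl⟩
  have e1 : X = T + δ • eu k := by
    rw [hT, hδ]
    unfold tgv
    rw [sub_add_cancel]
  rw [← hδ, ← hT]
  have e2 : hs Q x X X = hs Q x (T + δ • eu k) (T + δ • eu k) := by rw [← e1]
  rw [e2, hs_add_left, hs_add_right, hs_add_right, hs_smul_left, hs_smul_left, hs_smul_right,
    hs_smul_right, hs_comm Q x (eu k) T]
  ring

/-- **The equation of the charts**: `u = c r`, the target `c (r + 1)`; `ω`, `ν` two samples of one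
exact point, `own` the own velocity of `u` along `ν` over the chart of `ω`. -/
theorem crt_two (m D r : ℕ) : ∃ C : ℕ, 1 ≤ C ∧ ∀ {J : ℕ} {F : Fam m J} {c : ℕ → Fin m}
    {a e k : ℕ} {g₀ : ℕ → ℕ} {A : F.Ω → Prop}
    {G₀ : PtT F → ℕ → MvPolynomial (Option (Fin m)) ℝ}
    {H₀ : LnT F → ℕ → MvPolynomial (Option (Fin m)) ℝ}, Set.InjOn c (Set.Iio (r + 2)) → a ≤ J →
    ChOK F c (r + 2) (fun _ => D) a a e g₀ A G₀ H₀ →
    (∀ l ≤ r + 1, e + g₀ l + C * (k + 1) ≤ J) → ∀ ω ν, A ω → A ν → ptr F J ω = ptr F J ν →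
    (∀ l ≤ r + 1, ∀ τ ∈ Set.Icc (0 : ℝ) 1,
      |(dv a (fun s _ => H₀ s l) (c l) (slam F a ν)).eval τ| ≤ 2 ^ k / 2 ^ g₀ l) →
    |own (H₀ (slam F a ω) r) (c r) (bt F ω) (bd F ν)| ≤ 2 ^ (C * (k + 1)) * 2 ^ a / 2 ^ g₀ r ∧
      |hs (H₀ (slam F a ω) (r + 1)) (bt F ω)
          (tgv (H₀ (slam F a ω) r) (c r) (bt F ω) (bd F ν))
          (tgv (H₀ (slam F a ω) r) (c r) (bt F ω) (bd F ν)) +
        2 * hs (H₀ (slam F a ω) (r + 1)) (bt F ω)
          (tgv (H₀ (slam F a ω) r) (c r) (bt F ω) (bd F ν)) (eu (c r)) *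
          own (H₀ (slam F a ω) r) (c r) (bt F ω) (bd F ν) +
        hs (H₀ (slam F a ω) (r + 1)) (bt F ω) (eu (c r)) (eu (c r)) *
          own (H₀ (slam F a ω) r) (c r) (bt F ω) (bd F ν) ^ 2| ≤
        2 ^ (C * (k + 1)) * (2 ^ a) ^ 2 / 2 ^ g₀ (r + 1) := by
  obtain ⟨C, hC, h⟩ := crt_eq m D (r + 1)
  refine ⟨C, hC, ?_⟩
  intro J F c a e k g₀ A G₀ H₀ hc haJ hch hJ ω ν hω hν hpt hdv
  refine ⟨(h hc haJ hch hJ ω ν hω hν hpt hdv r (by omega)).1, ?_⟩
  rw [crt_alg]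
  exact (h hc haJ hch hJ ω ν hω hν hpt hdv (r + 1) le_rfl).2

/-! ### The forms along a line -/

/-- The tangent direction along a curve, as polynomials. -/
noncomputable def tgp (P : MvPolynomial (Option (Fin m)) ℝ) (k : Fin m)
    (p : Option (Fin m) → Polynomial ℝ) (X : Option (Fin m) → ℝ) (o : Option (Fin m)) :
    Polynomial ℝ :=
  if o = some k then ∑ o', Polynomial.C (X o') * aeval p (pderiv o' P) else Polynomial.C (X o)

theorem tgp_eval (P : MvPolynomial (Option (Fin m)) ℝ) (k : Fin m)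
    (p : Option (Fin m) → Polynomial ℝ) (X : Option (Fin m) → ℝ) (τ : ℝ) :
    (fun o => (tgp P k p X o).eval τ) = tgv P k (fun o => (p o).eval τ) X := by
  funext o
  unfold tgp
  split_ifs with ho
  · subst ho
    rw [tgv_self, Polynomial.eval_finsetSum]
    unfold dd
    refine Finset.sum_congr rfl fun o' _ => ?_
    rw [Polynomial.eval_mul, Polynomial.eval_C, Pool.KBX.eval_aeval_poly, mul_comm]
  · rw [tgv_ne _ _ _ _ ho, Polynomial.eval_C]

theorem tgp_deg {P : MvPolynomial (Option (Fin m)) ℝ} {D : ℕ} (hP : P.totalDegree ≤ D)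
    (k : Fin m) {p : Option (Fin m) → Polynomial ℝ} (hp : ∀ o, (p o).natDegree ≤ 1)
    (X : Option (Fin m) → ℝ) (o : Option (Fin m)) : (tgp P k p X o).natDegree ≤ D := by
  unfold tgp
  split_ifs
  · refine Polynomial.natDegree_sum_le_of_forall_le _ _ fun o' _ => ?_
    refine (Polynomial.natDegree_C_mul_le _ _).trans ?_
    exact (Pool.KBX.natDegree_aeval_le _ _ hp (totalDegree_pdσ hP o')).trans (by omega)
  · rw [Polynomial.natDegree_C]
    exact Nat.zero_le _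

/-- The form `hs` along a curve, as a polynomial. -/
noncomputable def hsp (Q : MvPolynomial (Option (Fin m)) ℝ) (p V W : Option (Fin m) → Polynomial ℝ) :
    Polynomial ℝ :=
  ∑ o, ∑ o', aeval p (pderiv o' (pderiv o Q)) * V o' * W o

theorem hsp_eval (Q : MvPolynomial (Option (Fin m)) ℝ) (p V W : Option (Fin m) → Polynomial ℝ)
    (τ : ℝ) : (hsp Q p V W).eval τ =
      hs Q (fun o => (p o).eval τ) (fun o => (V o).eval τ) (fun o => (W o).eval τ) := by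
  unfold hsp hs dd
  rw [Polynomial.eval_finsetSum]
  refine Finset.sum_congr rfl fun o _ => ?_
  rw [Polynomial.eval_finsetSum, Finset.sum_mul]
  refine Finset.sum_congr rfl fun o' _ => ?_
  rw [Polynomial.eval_mul, Polynomial.eval_mul, Pool.KBX.eval_aeval_poly]

theorem hsp_deg {Q : MvPolynomial (Option (Fin m)) ℝ} {D D' : ℕ} (hQ : Q.totalDegree ≤ D)
    {p V W : Option (Fin m) → Polynomial ℝ} (hp : ∀ o, (p o).natDegree ≤ 1)
    (hV : ∀ o, (V o).natDegree ≤ D') (hW : ∀ o, (W o).natDegree ≤ D') :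
    (hsp Q p V W).natDegree ≤ D + 2 * D' := by
  unfold hsp
  refine Polynomial.natDegree_sum_le_of_forall_le _ _ fun o _ => ?_
  refine Polynomial.natDegree_sum_le_of_forall_le _ _ fun o' _ => ?_
  refine Polynomial.natDegree_mul_le.trans ((add_le_add (Polynomial.natDegree_mul_le.trans
    (add_le_add (Pool.KBX.natDegree_aeval_le _ _ hp
      (totalDegree_pdσ (totalDegree_pdσ hQ o) o')) (hV o'))) (hW o)).trans ?_)
  omega

end Pool.CRT95
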